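import Pool.Agent.K3h2.LT.Stm

/-!
# CNT2: decomposition at the root (helper79 for helper2, MP_e9f8c5_pr)
-/

set_option autoImplicit false

namespace Pool.Agent.K3h79.LT

open Pool.Agent.K3h2.LT

/-- glue the root value `c` and the functions `F i` on the subtrees -/
def glue {d n : ℕ} (c : ℤ) (F : Fin d → V d n → ℤ) : V d (n + 1) → ℤ
  | ⟨[], _⟩ => c
  | ⟨i :: t, h⟩ => F i ⟨t, by simpa using h⟩

theorem sub_glue {d n : ℕ} (c : ℤ) (F : Fin d → V d n → ℤ) (i : Fin d) : sub (glue c F) i = F i := by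
  funext w
  rfl

theorem glue_nil {d n : ℕ} (c : ℤ) (F : Fin d → V d n → ℤ) (h) : glue c F ⟨[], h⟩ = c := rfl

theorem glue_sub {d n : ℕ} (f : V d (n + 1) → ℤ) : glue (f ⟨[], Nat.zero_le _⟩) (fun i => sub f i) = f := by
  funext w
  obtain ⟨w, hw⟩ := w
  cases w with
  | nil => rfl
  | cons i t => rfl

theorem lip_iff {d n : ℕ} (S : Finset ℤ) (f : V d (n + 1) → ℤ) :
    f ∈ Lip d (n + 1) S ↔ (∀ i, sub f i ∈ Lip d n S) ∧
      ∀ i, |sub f i ⟨[], Nat.zero_le n⟩ - f ⟨[], Nat.zero_le (n + 1)⟩| ≤ 1 := by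
  constructor
  · rintro ⟨h1, h2⟩
    refine ⟨fun i => ⟨fun w j h h' => ?_, fun w hw => ?_⟩, fun i => ?_⟩
    · exact h1 (i :: w) j (by simpa using h) (by simpa using h')
    · exact h2 ⟨i :: w.1, by simpa using w.2⟩ (by simpa using hw)
    · exact h1 [] i (by simp) (by simp)
  · rintro ⟨h1, h2⟩
    refine ⟨fun w j h h' => ?_, fun w hw => ?_⟩
    · cases w with
      | nil => exact h2 j
      | cons i t => exact (h1 i).1 t j (by simpa using h) (by simpa using h')
    · obtain ⟨w, hw'⟩ := w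
      cases w with
      | nil => simp at hw
      | cons i t => exact (h1 i).2 ⟨t, by simpa using hw'⟩ (by simpa using hw)

theorem res_iff {d r n : ℕ} (h : r ≤ n) (f : V d (n + 1) → ℤ) (g : V d (r + 1) → ℤ) :
    res d (Nat.succ_le_succ h) f = g ↔
      f ⟨[], Nat.zero_le (n + 1)⟩ = g ⟨[], Nat.zero_le (r + 1)⟩ ∧ ∀ i, res d h (sub f i) = sub g i := by
  constructor
  · rintro rfl
    exact ⟨rfl, fun i => rfl⟩
  · rintro ⟨h1, h2⟩
    funext w
    obtain ⟨w, hw⟩ := w
    cases w with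
    | nil => exact h1
    | cons i t => exact congrFun (h2 i) ⟨t, by simpa using hw⟩

theorem t_CNT2 : S_CNT2 := by
  classical
  intro d S _ r n h g
  split_ifs with hg
  · have e : {f ∈ Lip d (n + 1) S | res d (Nat.succ_le_succ h) f = g} ≃
        ∀ i : Fin d, {f ∈ Lip d n S | res d h f = sub g i} :=
      { toFun := fun f i => ⟨sub f.1 i, ((lip_iff S f.1).1 f.2.1).1 i, ((res_iff h f.1 g).1 f.2.2).2 i⟩
        invFun := fun F => ⟨glue (g ⟨[], Nat.zero_le (r + 1)⟩) (fun i => (F i).1), by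
          refine ⟨(lip_iff S _).2 ⟨fun i => ?_, fun i => ?_⟩, (res_iff h _ g).2 ⟨rfl, fun i => ?_⟩⟩
          · rw [sub_glue]
            exact (F i).2.1
          · rw [sub_glue, glue_nil]
            have h1 : (F i).1 ⟨[], Nat.zero_le n⟩ = sub g i ⟨[], Nat.zero_le r⟩ :=
              congrFun (F i).2.2 ⟨[], Nat.zero_le r⟩
            rw [h1]
            exact hg i
          · rw [sub_glue]
            exact (F i).2.2⟩
        left_inv := fun f => by
          apply Subtype.ext
          have h1 : g ⟨[], Nat.zero_le (r + 1)⟩ = f.1 ⟨[], Nat.zero_le (n + 1)⟩ :=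
            (((res_iff h f.1 g).1 f.2.2).1).symm
          change glue (g ⟨[], Nat.zero_le (r + 1)⟩) (fun i => sub f.1 i) = f.1
          rw [h1]
          exact glue_sub f.1
        right_inv := fun F => by
          funext i
          apply Subtype.ext
          exact sub_glue (g ⟨[], Nat.zero_le (r + 1)⟩) (fun i => (F i).1) i }
    rw [← Nat.card_coe_set_eq, Nat.card_congr e, Nat.card_pi]
    simp only [Nat.card_coe_set_eq]
  · have h0 : {f ∈ Lip d (n + 1) S | res d (Nat.succ_le_succ h) f = g} = ∅ := ?_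
    · rw [h0, Set.ncard_empty]
    rw [Set.eq_empty_iff_forall_notMem]
    rintro f ⟨h1, h2⟩
    apply hg
    intro i
    have h3 := ((lip_iff S f).1 h1).2 i
    obtain ⟨h4, h5⟩ := (res_iff h f g).1 h2
    rw [← h4, ← h5 i]
    exact h3

end Pool.Agent.K3h79.LT

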