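import Pool.Agent.K3h2.LT.Stm

/-! Brick ENE of project LT (helper2): the energy identity. -/

set_option autoImplicit false
set_option linter.all false

open Filter Topology

namespace Pool.Agent.K3h79.LT

open Pool.Agent.K3h2.LT

theorem shift {f : ℤ → ℝ} {T : ℝ} (j : ℤ) (h : HasSum f T) : HasSum (fun k => f (k + j)) T :=
  ((Equiv.addRight j).hasSum_iff).2 h

theorem le_one {s : ℕ → ℤ → ℝ} {lam : ℕ → ℝ} (h : Orb0 s lam) (n : ℕ) (k : ℤ) : s n k ≤ 1 := by
  have h1 : s n k ^ 3 ≤ 1 := by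
    refine le_hasSum (h.cube n) k fun j _ => pow_nonneg (h.nonneg n j) 3
  exact le_of_pow_le_pow_left₀ (n := 3) (by norm_num) zero_le_one (by simpa using h1)

theorem summ {s : ℕ → ℤ → ℝ} {lam : ℕ → ℝ} (h : Orb0 s lam) (n n' : ℕ) (j : ℤ) :
    Summable fun k => s n k ^ 2 * s n' (k + j) ^ 2 := by
  refine Summable.of_nonneg_of_le (fun k => by positivity) (fun k => ?_) (h.summable n)
  have h0 := h.nonneg n k
  have h1 := le_one h n k
  have h2 := h.nonneg n' (k + j)
  have h3 := le_one h n' (k + j)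
  have h4 : s n' (k + j) ^ 2 ≤ 1 := pow_le_one₀ h2 h3
  have h5 : s n k ^ 2 ≤ s n k := by nlinarith
  calc s n k ^ 2 * s n' (k + j) ^ 2 ≤ s n k ^ 2 * 1 :=
        mul_le_mul_of_nonneg_left h4 (by positivity)
    _ ≤ s n k := by rw [mul_one]; exact h5

theorem t_ENE : S_ENE := by
  intro s lam h n
  -- the three sums
  obtain ⟨A, hA⟩ := summ h (n + 1) n (-1)
  obtain ⟨B, hB⟩ := summ h (n + 1) n 0
  obtain ⟨C, hC⟩ := summ h (n + 1) n 1
  have e1 : HasSum (fun k => lam n * s (n + 1) k ^ 3) (lam n * 1) := (h.cube (n + 1)).mul_left _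
  have f1 : (fun k => lam n * s (n + 1) k ^ 3) = fun k =>
      s (n + 1) k ^ 2 * s n (k + -1) ^ 2 + s (n + 1) k ^ 2 * s n (k + 0) ^ 2 +
        s (n + 1) k ^ 2 * s n (k + 1) ^ 2 := by
    funext k
    have h1 := h.step n k
    rw [add_zero, ← sub_eq_add_neg]
    linear_combination (s (n + 1) k ^ 2) * h1
  have e2 : HasSum (fun k => lam n * s (n + 1) k ^ 3) (A + B + C) := by
    rw [f1]
    exact (hA.add hB).add hC
  have e3 : A + B + C = lam n := by
    rw [← mul_one (lam n)]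
    exact e2.unique e1
  -- the other order
  have hA' : HasSum (fun k => s n k ^ 2 * s (n + 1) (k + 1) ^ 2) A := by
    have h1 := shift 1 hA
    have h2 : (fun k => s (n + 1) (k + 1) ^ 2 * s n (k + 1 + -1) ^ 2) =
        fun k => s n k ^ 2 * s (n + 1) (k + 1) ^ 2 := by
      funext k
      rw [add_neg_cancel_right, mul_comm]
    rw [h2] at h1
    exact h1
  have hC' : HasSum (fun k => s n k ^ 2 * s (n + 1) (k - 1) ^ 2) C := by
    have h1 := shift (-1) hC
    have h2 : (fun k => s (n + 1) (k + -1) ^ 2 * s n (k + -1 + 1) ^ 2) =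
        fun k => s n k ^ 2 * s (n + 1) (k - 1) ^ 2 := by
      funext k
      rw [neg_add_cancel_right, mul_comm, ← sub_eq_add_neg]
    rw [h2] at h1
    exact h1
  have hB' : HasSum (fun k => s n k ^ 2 * s (n + 1) k ^ 2) B := by
    have h2 : (fun k => s (n + 1) k ^ 2 * s n (k + 0) ^ 2) =
        fun k => s n k ^ 2 * s (n + 1) k ^ 2 := by
      funext k
      rw [add_zero, mul_comm]
    rw [h2] at hB
    exact hB
  have hp := h.pos (n + 1)
  have e4 : HasSum (fun k => s (n + 2) k * s n k ^ 2) (lam n / lam (n + 1)) := by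
    have h1 := ((hC'.add hB').add hA').div_const (lam (n + 1))
    have h2 : (C + B + A) / lam (n + 1) = lam n / lam (n + 1) := by
      rw [← e3]
      ring
    rw [h2] at h1
    have h3 : (fun k => (s n k ^ 2 * s (n + 1) (k - 1) ^ 2 + s n k ^ 2 * s (n + 1) k ^ 2 +
        s n k ^ 2 * s (n + 1) (k + 1) ^ 2) / lam (n + 1)) =
        fun k => s (n + 2) k * s n k ^ 2 := by
      funext k
      rw [div_eq_iff hp.ne']
      have h4 := h.step (n + 1) k
      linear_combination (-(s n k ^ 2)) * h4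
    rw [h3] at h1
    exact h1
  have e5 : HasSum (fun k => (s (n + 2) k - s n k) ^ 2 * (s (n + 2) k + 2 * s n k))
      (3 * (lam (n + 1) - lam n) / lam (n + 1)) := by
    have h1 := ((h.cube (n + 2)).add ((h.cube n).mul_left 2)).sub (e4.mul_left 3)
    have h2 : 1 + 2 * 1 - 3 * (lam n / lam (n + 1)) =
        3 * (lam (n + 1) - lam n) / lam (n + 1) := by
      field_simp
      ring
    rw [h2] at h1
    have h3 : (fun k => s (n + 2) k ^ 3 + 2 * s n k ^ 3 - 3 * (s (n + 2) k * s n k ^ 2)) =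
        fun k => (s (n + 2) k - s n k) ^ 2 * (s (n + 2) k + 2 * s n k) := by
      funext k
      ring
    rw [h3] at h1
    exact h1
  refine ⟨?_, ?_, e5⟩
  · -- lam n ≤ 3
    have h1 : HasSum (fun k => (2 * s (n + 1) k ^ 3 + s n (k + -1) ^ 3) / 3 +
        (2 * s (n + 1) k ^ 3 + s n (k + 0) ^ 3) / 3 +
        (2 * s (n + 1) k ^ 3 + s n (k + 1) ^ 3) / 3) ((2 * 1 + 1) / 3 + (2 * 1 + 1) / 3 +
          (2 * 1 + 1) / 3) :=
      (((((h.cube (n + 1)).mul_left 2).add (shift (-1) (h.cube n))).div_const 3).add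
        ((((h.cube (n + 1)).mul_left 2).add (shift 0 (h.cube n))).div_const 3)).add
        ((((h.cube (n + 1)).mul_left 2).add (shift 1 (h.cube n))).div_const 3)
    have h2 : ∀ x y : ℝ, 0 ≤ x → 0 ≤ y → y ≤ 1 → x ^ 2 * y ^ 2 ≤ (2 * x ^ 3 + y ^ 3) / 3 := by
      intro x y hx hy hy1
      have h3 : x ^ 2 * y ^ 2 ≤ x ^ 2 * y := by
        refine mul_le_mul_of_nonneg_left ?_ (by positivity)
        nlinarith
      have h4 : 0 ≤ (x - y) ^ 2 * (2 * x + y) := by positivity
      nlinarith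
    have h3 : lam n ≤ (2 * 1 + 1) / 3 + (2 * 1 + 1) / 3 + (2 * 1 + 1) / 3 := by
      rw [← e3]
      refine hasSum_le (fun k => ?_) ((hA.add hB).add hC) h1
      have h5 := h.nonneg (n + 1) k
      exact add_le_add (add_le_add
        (h2 _ _ h5 (h.nonneg n _) (le_one h n _)) (h2 _ _ h5 (h.nonneg n _) (le_one h n _)))
        (h2 _ _ h5 (h.nonneg n _) (le_one h n _))
    norm_num at h3
    exact h3
  · have h1 : 0 ≤ 3 * (lam (n + 1) - lam n) / lam (n + 1) :=
      e5.nonneg fun k => mul_nonneg (sq_nonneg _)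
        (add_nonneg (h.nonneg _ k) (mul_nonneg zero_le_two (h.nonneg n k)))
    rw [le_div_iff₀ hp, zero_mul] at h1
    linarith

end Pool.Agent.K3h79.LT
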